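import Mathlib

/-!
# Graphs with a prescribed number of irreducible FAT colourings
-/

namespace Pool.Agent.Results.MP_48b99b_co.ExactlyB

/-! ## Definitions used in the statement -/

/-- The number of neighbours of `v` in the class `q` of the partition `s`. -/
noncomputable def nbrs {V : Type*} (G : SimpleGraph V) (s : Setoid V) (v : V)
    (q : Quotient s) : ℕ :=
  Nat.card {w : V // G.Adj v w ∧ Quotient.mk s w = q}

/-- The degree of `v`. -/
noncomputable def deg {V : Type*} (G : SimpleGraph V) (v : V) : ℕ :=
  Nat.card {w : V // G.Adj v w}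

/-- The partition `s` of the vertices (with `k` classes) is the partition of a FAT colouring:
for some `α ∈ [0, 1]` and `β = 1 - (k - 1) α`, every vertex has `α deg v` neighbours in each class
not containing it and `β deg v` neighbours in its own class. -/
def IsFAT {V : Type*} (G : SimpleGraph V) (s : Setoid V) : Prop :=
  ∃ α : ℝ, 0 ≤ α ∧ α ≤ 1 ∧ ∀ (v : V) (q : Quotient s),
    (Quotient.mk s v ≠ q → (nbrs G s v q : ℝ) = α * (deg G v : ℝ)) ∧
    (Quotient.mk s v = q →
      (nbrs G s v q : ℝ) = (1 - ((Nat.card (Quotient s) : ℝ) - 1) * α) * (deg G v : ℝ))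

/-- A FAT partition is irreducible if no other FAT partition refines it
(`t ≤ s` says that every class of `s` is a union of classes of `t`). -/
def IrreducibleFAT {V : Type*} (G : SimpleGraph V) (s : Setoid V) : Prop :=
  IsFAT G s ∧ ∀ t : Setoid V, IsFAT G t → t ≤ s → t = s

/-- Two partitions are regarded as the same if an automorphism maps one onto the other. -/
def SameUpToAut {V : Type*} (G : SimpleGraph V) (s t : Setoid V) : Prop :=
  ∃ φ : G ≃g G, ∀ x y, s.r x y ↔ t.r (φ x) (φ y)

/-- `G` has exactly `b` irreducible FAT colourings, counted up to automorphisms: there is a list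
of `b` pairwise inequivalent irreducible FAT partitions containing every irreducible FAT partition
up to equivalence. -/
def HasExactly {V : Type*} (G : SimpleGraph V) (b : ℕ) : Prop :=
  ∃ rep : Fin b → Setoid V, (∀ i, IrreducibleFAT G (rep i)) ∧
    (∀ i j, SameUpToAut G (rep i) (rep j) → i = j) ∧
    ∀ s, IrreducibleFAT G s → ∃ i, SameUpToAut G s (rep i)

/-! ## The graphs -/

/-- Vertices: binary words. -/
def W : ℕ → Type
  | 0 => Unit
  | n + 1 => Bool × W n

instance instFintypeW : ∀ n, Fintype (W n)
  | 0 => inferInstanceAs (Fintype Unit)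
  | n + 1 => @instFintypeProd Bool (W n) _ (instFintypeW n)

instance instNonemptyW : ∀ n, Nonempty (W n)
  | 0 => inferInstanceAs (Nonempty Unit)
  | n + 1 => @instNonemptyProd Bool (W n) _ (instNonemptyW n)

/-- Two words are adjacent according to the parity of the first position where they differ. -/
def adj : (n : ℕ) → Bool → W n → W n → Bool
  | 0, _, _, _ => false
  | n + 1, p, x, y => if x.1 = y.1 then adj n (!p) x.2 y.2 else p

lemma adj_symm : ∀ (n : ℕ) (p : Bool) (x y : W n), adj n p x y = adj n p y x
  | 0, _, _, _ => rfl
  | n + 1, p, x, y => by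
    simp only [adj]
    by_cases h : x.1 = y.1
    · rw [if_pos h, if_pos h.symm, adj_symm n (!p) x.2 y.2]
    · rw [if_neg h, if_neg (fun h' => h h'.symm)]

lemma adj_irrefl : ∀ (n : ℕ) (p : Bool) (x : W n), adj n p x x = false
  | 0, _, _ => rfl
  | n + 1, p, x => by
    simp only [adj, if_true]
    exact adj_irrefl n (!p) x.2

/-- The graph. -/
def Gr (n : ℕ) (p : Bool) : SimpleGraph (W n) where
  Adj x y := adj n p x y = true
  symm := ⟨fun x y h => by rw [adj_symm]; exact h⟩
  loopless := ⟨fun x h => by rw [adj_irrefl] at h; cases h⟩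

/-- The adjacency operator. -/
noncomputable def A (n : ℕ) (p : Bool) (f : W n → ℝ) (x : W n) : ℝ :=
  ∑ y, if adj n p x y = true then f y else 0

/-- The degree. -/
def D : ℕ → Bool → ℝ
  | 0, _ => 0
  | n + 1, p => D n (!p) + if p = true then 2 ^ n else 0

/-- The eigenvalues. -/
def th : ℕ → Bool → ℕ → ℝ
  | 0, _, _ => 0
  | n + 1, p, 0 => D n (!p) - if p = true then 2 ^ n else 0
  | n + 1, p, l + 1 => th n (!p) l

lemma sum_succ {n : ℕ} (f : W (n + 1) → ℝ) :
    ∑ x, f x = ∑ y, f (false, y) + ∑ y, f (true, y) := by
  have h := Fintype.sum_prod_type (fun x : Bool × W n => f x)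
  rw [Fintype.sum_bool, add_comm] at h
  exact h

lemma card_W (n : ℕ) : ∑ _x : W n, (1 : ℝ) = 2 ^ n := by
  induction n with
  | zero =>
    have : ∑ _x : W 0, (1 : ℝ) = ∑ _x : Unit, (1 : ℝ) := rfl
    rw [this]; simp
  | succ n ih =>
    rw [sum_succ, ih, pow_succ]
    ring

lemma A_succ {n : ℕ} (p : Bool) (f : W (n + 1) → ℝ) (s : Bool) (x : W n) :
    A (n + 1) p f (s, x) =
      A n (!p) (fun y => f (s, y)) x + if p = true then ∑ y, f (!s, y) else 0 := by
  unfold A
  rw [sum_succ]
  cases s <;> cases p <;> simp [adj, add_comm]

lemma sum_A (n : ℕ) : ∀ (p : Bool) (f : W n → ℝ), ∑ x, A n p f x = D n p * ∑ x, f x := by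
  induction n with
  | zero =>
    intro p f
    simp [A, adj, D]
  | succ n ih =>
    intro p f
    rw [sum_succ, sum_succ]
    simp only [A_succ, Finset.sum_add_distrib, ih, D]
    cases p
    · simp
      ring
    · simp only [Bool.not_true, Bool.not_false, if_true, Finset.sum_const, Finset.card_univ,
        nsmul_eq_mul]
      have h := card_W n
      rw [Finset.sum_const, Finset.card_univ, nsmul_eq_mul, mul_one] at h
      rw [h]
      ring

lemma A_const (n : ℕ) : ∀ (p : Bool) (r : ℝ) (x : W n), A n p (fun _ => r) x = D n p * r := by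
  induction n with
  | zero => intro p r x; simp [A, adj, D]
  | succ n ih =>
    rintro p r ⟨s, x⟩
    rw [A_succ, ih, D]
    have h := card_W n
    rw [Finset.sum_const, Finset.card_univ, nsmul_eq_mul, mul_one] at h
    cases p
    · simp
    · simp only [if_true, Finset.sum_const, Finset.card_univ, nsmul_eq_mul, h]
      ring

lemma A_sub (n : ℕ) (p : Bool) (f g : W n → ℝ) (x : W n) :
    A n p (fun y => f y - g y) x = A n p f x - A n p g x := by
  unfold A
  rw [← Finset.sum_sub_distrib]
  refine Finset.sum_congr rfl fun y _ => ?_
  split_ifs <;> simp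

/-! ## Bounds on the eigenvalues -/

lemma D_nonneg (n : ℕ) : ∀ p, 0 ≤ D n p := by
  induction n with
  | zero => intro p; simp [D]
  | succ n ih =>
    intro p
    rw [D]
    have := ih (!p)
    have h2 : (0 : ℝ) ≤ 2 ^ n := by positivity
    split_ifs <;> linarith

lemma D_lt (n : ℕ) : ∀ p, D n p < 2 ^ n := by
  induction n with
  | zero => intro p; simp [D]
  | succ n ih =>
    intro p
    rw [D, pow_succ]
    have := ih (!p)
    have h2 : (0 : ℝ) < 2 ^ n := by positivity
    split_ifs <;> linarith

/-- For `p = true` all eigenvalues are less than the degree, for `p = false` they are larger than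
`D n false - 2 ^ n`. -/
lemma th_bounds (n : ℕ) : ∀ l < n,
    (th n true l < D n true ∧ D n false - 2 ^ n < th n false l) := by
  induction n with
  | zero => intro l hl; omega
  | succ n ih =>
    intro l hl
    have h2 : (0 : ℝ) < 2 ^ n := by positivity
    cases l with
    | zero =>
      simp only [th, D, Bool.not_true, Bool.not_false, if_true, pow_succ]
      constructor
      · linarith
      · simp
    | succ l =>
      obtain ⟨h3, h4⟩ := ih l (by omega)
      have hD1 := D_lt n true
      have hD2 := D_lt n false
      have hD3 := D_nonneg n false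
      have hD4 := D_nonneg n true
      -- crude bounds on all eigenvalues
      have hup : ∀ (m : ℕ) (q : Bool) (j : ℕ), j < m → th m q j ≤ D m q := by
        intro m
        induction m with
        | zero => intro q j hj; omega
        | succ m ihm =>
          intro q j hj
          have h2 : (0 : ℝ) < 2 ^ m := by positivity
          cases j with
          | zero =>
            simp only [th, D]
            split_ifs <;> linarith
          | succ j =>
            have := ihm (!q) j (by omega)
            simp only [th, D]
            split_ifs <;> linarith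
      have hlow : ∀ (m : ℕ) (q : Bool) (j : ℕ), j < m → D m q - 2 ^ m ≤ th m q j := by
        intro m
        induction m with
        | zero => intro q j hj; omega
        | succ m ihm =>
          intro q j hj
          have h2 : (0 : ℝ) < 2 ^ m := by positivity
          cases j with
          | zero =>
            simp only [th, D, pow_succ]
            split_ifs <;> linarith
          | succ j =>
            have := ihm (!q) j (by omega)
            simp only [th, D, pow_succ]
            split_ifs <;> linarith
      simp only [th, D, Bool.not_true, Bool.not_false, if_true, pow_succ]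
      have h5 := hup n false l (by omega)
      have h6 := hlow n true l (by omega)
      constructor
      · linarith
      · simp only [Bool.false_eq_true, if_false]
        linarith

lemma top_ne (n : ℕ) (p : Bool) (l : ℕ) (hl : l < n) :
    (D n (!p) - if p = true then 2 ^ n else 0) ≠ th n (!p) l := by
  obtain ⟨h1, h2⟩ := th_bounds n l hl
  cases p
  · simp only [Bool.not_false, Bool.false_eq_true, if_false, sub_zero]
    exact h1.ne'
  · simp only [Bool.not_true, if_true]
    exact h2.ne

lemma th_inj (n : ℕ) : ∀ (p : Bool) (l l' : ℕ), l < n → l' < n → th n p l = th n p l' →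
    l = l' := by
  induction n with
  | zero => intro p l l' hl; omega
  | succ n ih =>
    intro p l l' hl hl' h
    cases l with
    | zero =>
      cases l' with
      | zero => rfl
      | succ l' =>
        exact absurd h (top_ne n p l' (by omega))
    | succ l =>
      cases l' with
      | zero => exact absurd h.symm (top_ne n p l (by omega))
      | succ l' =>
        rw [ih (!p) l l' (by omega) (by omega) h]

/-! ## Eigenfunctions -/

lemma half_sums {n : ℕ} {p : Bool} {θ : ℝ} {f : W (n + 1) → ℝ}
    (hf : ∀ x, A (n + 1) p f x = θ * f x) (h0 : ∑ x, f x = 0)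
    (hne : θ ≠ D n (!p) - if p = true then 2 ^ n else 0) (s : Bool) :
    ∑ y, f (s, y) = 0 := by
  have h1 : ∀ s : Bool, ∑ y, f (!s, y) = - ∑ y, f (s, y) := by
    intro s
    rw [sum_succ] at h0
    cases s
    · simp only [Bool.not_false]; linarith
    · simp only [Bool.not_true]; linarith
  have h2 : ∑ x, A (n + 1) p f (s, x) = θ * ∑ x, f (s, x) := by
    rw [Finset.mul_sum]
    exact Finset.sum_congr rfl fun x _ => hf (s, x)
  simp only [A_succ, Finset.sum_add_distrib, sum_A, h1 s, Finset.sum_const, Finset.card_univ,
    nsmul_eq_mul] at h2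
  have h3 := card_W n
  rw [Finset.sum_const, Finset.card_univ, nsmul_eq_mul, mul_one] at h3
  rw [h3] at h2
  have h4 : (θ - (D n (!p) - if p = true then 2 ^ n else 0)) * ∑ y, f (s, y) = 0 := by
    split_ifs at h2 ⊢ <;> linarith
  rcases mul_eq_zero.1 h4 with h5 | h5
  · exact absurd (by linarith) hne
  · exact h5

lemma restrict_eigen {n : ℕ} {p : Bool} {θ : ℝ} {f : W (n + 1) → ℝ}
    (hf : ∀ x, A (n + 1) p f x = θ * f x)
    (hs : ∀ s : Bool, ∑ y, f (s, y) = 0) (s : Bool) (x : W n) :
    A n (!p) (fun y => f (s, y)) x = θ * f (s, x) := by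
  have := hf (s, x)
  rw [A_succ, hs (!s)] at this
  simpa using this

lemma lemF (n : ℕ) : ∀ (p : Bool) (θ : ℝ) (f : W n → ℝ), (∀ x, A n p f x = θ * f x) →
    ∑ x, f x = 0 → (∃ x, f x ≠ 0) → ∃ l < n, θ = th n p l := by
  induction n with
  | zero =>
    rintro p θ f - h0 ⟨x, hx⟩
    exfalso
    apply hx
    have h1 : ∑ x : W 0, f x = f x := by
      have : (Finset.univ : Finset (W 0)) = {x} := rfl
      rw [this, Finset.sum_singleton]
    rw [← h1, h0]
  | succ n ih =>
    rintro p θ f hf h0 ⟨⟨s, x⟩, hx⟩
    by_cases hθ : θ = D n (!p) - if p = true then 2 ^ n else 0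
    · exact ⟨0, by omega, hθ⟩
    · have hs := half_sums hf h0 hθ
      obtain ⟨l, hl, h⟩ := ih (!p) θ (fun y => f (s, y)) (restrict_eigen hf hs s) (hs s) ⟨x, hx⟩
      exact ⟨l + 1, by omega, h⟩

/-! ## Standard colourings -/

/-- The `l`-th letter. -/
def std : (n : ℕ) → ℕ → W n → Bool
  | 0, _, _ => false
  | _ + 1, 0, x => x.1
  | n + 1, l + 1, x => std n l x.2

/-- Flipping the `l`-th letter. -/
def flip : (n : ℕ) → ℕ → W n → W n
  | 0, _, x => x
  | _ + 1, 0, x => (!x.1, x.2)
  | n + 1, l + 1, x => (x.1, flip n l x.2)

lemma flip_flip : ∀ (n l : ℕ) (x : W n), flip n l (flip n l x) = x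
  | 0, _, _ => rfl
  | _ + 1, 0, (s, x) => by
    simp only [flip, Bool.not_not] <;> rfl
  | n + 1, l + 1, (s, x) => by
    simp only [flip]
    rw [flip_flip n l x]

lemma adj_flip : ∀ (n l : ℕ) (p : Bool) (x y : W n),
    adj n p (flip n l x) (flip n l y) = adj n p x y
  | 0, _, _, _, _ => rfl
  | _ + 1, 0, p, (s, x), (t, y) => by
    cases s <;> cases t <;> rfl
  | n + 1, l + 1, p, (s, x), (t, y) => by
    simp only [flip, adj]
    rw [adj_flip n l (!p) x y] <;> rfl

lemma std_flip : ∀ (n l : ℕ) (x : W n), l < n → std n l (flip n l x) = !(std n l x)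
  | 0, _, _, h => by omega
  | _ + 1, 0, (s, x), _ => by simp [flip, std]
  | n + 1, l + 1, (s, x), h => by
    simp only [flip, std]
    rw [std_flip n l x (by omega)]

/-- Sign of a letter. -/
def sg (b : Bool) : ℝ := if b = true then 1 else -1

lemma sum_std (n : ℕ) : ∀ l < n, ∑ x, sg (std n l x) = 0 := by
  induction n with
  | zero => intro l hl; omega
  | succ n ih =>
    intro l hl
    rw [sum_succ]
    cases l with
    | zero => simp [std, sg]
    | succ l =>
      simp only [std]
      rw [ih l (by omega)]
      ring

lemma A_std (n : ℕ) : ∀ (p : Bool) (l : ℕ), l < n → ∀ x,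
    A n p (fun y => sg (std n l y)) x = th n p l * sg (std n l x) := by
  induction n with
  | zero => intro p l hl; omega
  | succ n ih =>
    rintro p l hl ⟨s, x⟩
    rw [A_succ]
    cases l with
    | zero =>
      simp only [std, th]
      rw [A_const]
      have h := card_W n
      rw [Finset.sum_const, Finset.card_univ, nsmul_eq_mul, mul_one] at h
      simp only [Finset.sum_const, Finset.card_univ, nsmul_eq_mul, h]
      cases s <;> cases p <;> simp [sg] <;> ring
    | succ l =>
      simp only [std, th]
      rw [ih (!p) l (by omega) x, sum_std n l (by omega)]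
      simp

/-! ## Classification of the colourings -/

lemma bool_equiv {κ : Type} (e e' : Bool ≃ κ) :
    (∀ b, e' b = e b) ∨ (∀ b, e' b = e (!b)) := by
  have h1 : ∀ b, e' b = e (e.symm (e' b)) := fun b => (e.apply_symm_apply _).symm
  have h2 : e.symm (e' false) ≠ e.symm (e' true) := fun h => by
    have := e'.injective (e.symm.injective h)
    cases this
  cases hf : e.symm (e' false) <;> cases ht : e.symm (e' true)
  · exact absurd (hf.trans ht.symm) h2
  · left
    intro b
    cases b
    · rw [h1 false, hf]
    · rw [h1 true, ht]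
  · right
    intro b
    cases b
    · rw [h1 false, hf]; rfl
    · rw [h1 true, ht]; rfl
  · exact absurd (hf.trans ht.symm) h2

open Classical in
/-- Difference of two class indicators. -/
noncomputable def dif {n : ℕ} {κ : Type} (c : W n → κ) (i j : κ) (x : W n) : ℝ :=
  (if c x = i then 1 else 0) - (if c x = j then 1 else 0)

lemma lemK (n : ℕ) : ∀ (p : Bool) (θ : ℝ) (κ : Type) (_ : Nontrivial κ) (c : W n → κ),
    Function.Surjective c → (∀ i j x, A n p (dif c i j) x = θ * dif c i j x) →
    (∀ i j, ∑ x, dif c i j x = 0) →
    ∃ l < n, θ = th n p l ∧ ∃ (e : Bool ≃ κ) (φ : W n ≃ W n),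
      (∀ x y, adj n p (φ x) (φ y) = adj n p x y) ∧ ∀ x, c x = e (std n l (φ x)) := by
  classical
  induction n with
  | zero =>
    intro p θ κ hκ c hc
    exfalso
    obtain ⟨i, j, hij⟩ := exists_pair_ne κ
    obtain ⟨x, rfl⟩ := hc i
    obtain ⟨y, rfl⟩ := hc j
    exact hij rfl
  | succ n ih =>
    intro p θ κ hκ c hc hA h0
    by_cases hθ : θ = D n (!p) - if p = true then 2 ^ n else 0
    · -- each half is monochromatic
      have hmono : ∀ (s : Bool) (x y : W n), c (s, x) = c (s, y) := by
        intro s x y
        by_contra hne
        set i := c (s, x) with hi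
        set j := c (s, y) with hj
        let f := dif c i j
        have hf : ∀ x, A (n + 1) p f x = θ * f x := hA i j
        have hf0 : ∑ x, f x = 0 := h0 i j
        let S : ℝ := ∑ y, f (s, y)
        have hS' : ∑ y, f (!s, y) = - S := by
          rw [sum_succ] at hf0
          cases s
          · simp only [S, Bool.not_false]; linarith
          · simp only [S, Bool.not_true]; linarith
        have hcard := card_W n
        rw [Finset.sum_const, Finset.card_univ, nsmul_eq_mul, mul_one] at hcard
        have hpos : (0 : ℝ) < 2 ^ n := by positivity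
        obtain ⟨l, hl, hcon⟩ := lemF n (!p) θ (fun y => f (s, y) - S / 2 ^ n) (by
          intro z
          rw [A_sub n (!p) (fun y => f (s, y)) (fun _ => S / 2 ^ n), A_const]
          have h1 := hf (s, z)
          rw [A_succ, hS'] at h1
          cases p
          · simp only [Bool.not_false, Bool.false_eq_true, if_false, sub_zero, add_zero]
              at h1 hθ ⊢
            rw [h1, hθ]; ring
          · simp only [Bool.not_true, if_true] at h1 hθ ⊢
            have h3 : A n false (fun y => f (s, y)) z = θ * f (s, z) + S := by linarith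
            rw [h3, hθ]
            field_simp
            ring) (by
          rw [Finset.sum_sub_distrib, Finset.sum_const, Finset.card_univ, nsmul_eq_mul, hcard]
          field_simp
          simp [S]) (by
          by_contra hall
          push Not at hall
          have hx := hall x
          have hy := hall y
          have e1 : f (s, x) = 1 := by
            simp only [f, dif]
            rw [← hi, if_pos rfl, if_neg hne]; ring
          have e2 : f (s, y) = -1 := by
            simp only [f, dif]
            rw [← hj, if_pos rfl, if_neg (fun h => hne h.symm)]; ring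
          rw [e1] at hx
          rw [e2] at hy
          linarith)
        exact top_ne n p l hl (hθ.symm.trans hcon)
      obtain ⟨x0⟩ := instNonemptyW n
      let e0 : Bool → κ := fun s => c (s, x0)
      have he0 : ∀ x : W (n + 1), c x = e0 x.1 := fun x => hmono x.1 x.2 x0
      have hsurj : Function.Surjective e0 := by
        intro i
        obtain ⟨x, hx⟩ := hc i
        exact ⟨x.1, by rw [← he0]; exact hx⟩
      have hinj : Function.Injective e0 := by
        obtain ⟨i, j, hij⟩ := exists_pair_ne κ
        obtain ⟨a, ha⟩ := hsurj i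
        obtain ⟨b, hb⟩ := hsurj j
        have hab : a ≠ b := by rintro rfl; exact hij (ha.symm.trans hb)
        have hne : e0 false ≠ e0 true := by
          intro h
          apply hij
          rw [← ha, ← hb]
          cases a <;> cases b
          · rfl
          · exact h
          · exact h.symm
          · rfl
        intro u v huv
        cases u <;> cases v
        · rfl
        · exact absurd huv hne
        · exact absurd huv.symm hne
        · rfl
      refine ⟨0, by omega, hθ, Equiv.ofBijective e0 ⟨hinj, hsurj⟩, Equiv.refl _,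
        fun _ _ => rfl, fun x => ?_⟩
      exact he0 x
    · -- recursion
      have hs : ∀ i j s, ∑ y, dif c i j (s, y) = 0 := fun i j s =>
        half_sums (hA i j) (h0 i j) hθ s
      have hdif : ∀ i j (s : Bool), (fun y => dif c i j (s, y)) =
          dif (fun y : W n => c (s, y)) i j := fun i j s => rfl
      have hsurj : ∀ s, Function.Surjective (fun y : W n => c (s, y)) := by
        intro s j
        obtain ⟨x0⟩ := instNonemptyW n
        by_contra hno
        have hno' : ∀ y : W n, c (s, y) ≠ j := fun y hy => hno ⟨y, hy⟩
        have h1 := hs (c (s, x0)) j s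
        have h2 : ∀ y ∈ (Finset.univ : Finset (W n)), 0 ≤ dif c (c (s, x0)) j (s, y) := by
          intro y _
          simp only [dif, if_neg (hno' y)]
          split_ifs <;> simp
        have h3 := (Finset.sum_eq_zero_iff_of_nonneg h2).1 h1 x0 (Finset.mem_univ _)
        simp only [dif, if_neg (hno' x0)] at h3
        simp at h3
      have hrec : ∀ s : Bool, ∃ l < n, θ = th n (!p) l ∧ ∃ (e : Bool ≃ κ) (φ : W n ≃ W n),
          (∀ x y, adj n (!p) (φ x) (φ y) = adj n (!p) x y) ∧
            ∀ x, c (s, x) = e (std n l (φ x)) := by
        intro s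
        refine ih (!p) θ κ hκ (fun y => c (s, y)) (hsurj s) ?_ (fun i j => hs i j s)
        intro i j x
        exact restrict_eigen (hA i j) (hs i j) s x
      obtain ⟨l, hl, hθl, e, φ, hφ, hcφ⟩ := hrec false
      obtain ⟨l', hl', hθl', e', φ', hφ', hcφ'⟩ := hrec true
      have hll : l = l' := th_inj n (!p) l l' hl hl' (hθl.symm.trans hθl')
      subst hll
      -- make the colour names agree
      obtain ⟨φ'', hφ'', hcφ''⟩ : ∃ φ'' : W n ≃ W n,
          (∀ x y, adj n (!p) (φ'' x) (φ'' y) = adj n (!p) x y) ∧
            ∀ x, c (true, x) = e (std n l (φ'' x)) := by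
        rcases bool_equiv e e' with hee | hee
        · exact ⟨φ', hφ', fun x => by rw [hcφ' x, hee]⟩
        · refine ⟨φ'.trans ⟨flip n l, flip n l, flip_flip n l, flip_flip n l⟩, ?_, fun x => ?_⟩
          · intro x y
            simp only [Equiv.trans_apply, Equiv.coe_fn_mk]
            rw [adj_flip, hφ']
          · rw [hcφ' x]
            simp only [Equiv.trans_apply, Equiv.coe_fn_mk]
            rw [std_flip n l _ hl, hee]
      refine ⟨l + 1, by omega, hθl, e, ?_⟩
      let ψ : Bool → (W n ≃ W n) := fun s => match s with
        | false => φ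
        | true => φ''
      have hψ : ∀ s x y, adj n (!p) (ψ s x) (ψ s y) = adj n (!p) x y := by
        intro s
        cases s
        · exact hφ
        · exact hφ''
      have hcψ : ∀ s x, c (s, x) = e (std n l (ψ s x)) := by
        intro s
        cases s
        · exact hcφ
        · exact hcφ''
      let Φ : W (n + 1) ≃ W (n + 1) :=
        { toFun := fun x => ((x.1, ψ x.1 x.2) : Bool × W n)
          invFun := fun x => ((x.1, (ψ x.1).symm x.2) : Bool × W n)
          left_inv := by
            rintro ⟨s, x⟩
            change ((s, (ψ s).symm (ψ s x)) : Bool × W n) = (s, x)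
            rw [Equiv.symm_apply_apply]
          right_inv := by
            rintro ⟨s, x⟩
            change ((s, (ψ s) ((ψ s).symm x)) : Bool × W n) = (s, x)
            rw [Equiv.apply_symm_apply] }
      refine ⟨Φ, ?_, ?_⟩
      · rintro ⟨s, x⟩ ⟨t, y⟩
        change (if s = t then adj n (!p) (ψ s x) (ψ t y) else p) =
          (if s = t then adj n (!p) x y else p)
        by_cases hst : s = t
        · subst hst
          rw [if_pos rfl, if_pos rfl, hψ]
        · rw [if_neg hst, if_neg hst]
      · rintro ⟨s, x⟩
        exact hcψ s x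

/-! ## Counting neighbours -/

lemma nbrs_eq (n : ℕ) (p : Bool) (s : Setoid (W n)) (v : W n) (q : Quotient s)
    [DecidableEq (Quotient s)] :
    (nbrs (Gr n p) s v q : ℝ) =
      A n p (fun y => if Quotient.mk s y = q then 1 else 0) v := by
  classical
  unfold nbrs A
  rw [Nat.card_eq_fintype_card, Fintype.card_subtype, ← Finset.sum_boole]
  refine Finset.sum_congr rfl fun y _ => ?_
  by_cases h1 : adj n p v y = true <;> by_cases h2 : Quotient.mk s y = q <;>
    simp [Gr, h1, h2]

lemma deg_eq (n : ℕ) (p : Bool) (v : W n) : (deg (Gr n p) v : ℝ) = D n p := by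
  classical
  have h := A_const n p 1 v
  rw [mul_one] at h
  rw [← h]
  unfold deg A
  rw [Nat.card_eq_fintype_card, Fintype.card_subtype, ← Finset.sum_boole]
  refine Finset.sum_congr rfl fun y _ => ?_
  by_cases h1 : adj n p v y = true <;> simp [Gr, h1]

lemma std_surj (n l : ℕ) (hl : l < n) : Function.Surjective (std n l) := by
  intro b
  obtain ⟨x⟩ := instNonemptyW n
  by_cases h : std n l x = b
  · exact ⟨x, h⟩
  · refine ⟨flip n l x, ?_⟩
    rw [std_flip n l x hl]
    cases b <;> cases h' : std n l x <;> simp_all

lemma card_std (n l : ℕ) (hl : l < n) : Nat.card (Quotient (Setoid.ker (std n l))) = 2 := by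
  rw [Nat.card_congr (Setoid.quotientKerEquivOfSurjective (std n l) (std_surj n l hl))]
  simp

lemma nbrs_std (n : ℕ) (p : Bool) (l : ℕ) (hl : l < n) (v w : W n) :
    (nbrs (Gr n p) (Setoid.ker (std n l)) v (Quotient.mk _ w) : ℝ) =
      (D n p + sg (std n l w) * (th n p l * sg (std n l v))) / 2 := by
  classical
  rw [nbrs_eq]
  have h1 : ∀ y : W n, (if (Quotient.mk (Setoid.ker (std n l)) y) =
      Quotient.mk (Setoid.ker (std n l)) w then (1 : ℝ) else 0) =
      (1 + sg (std n l w) * sg (std n l y)) / 2 := by
    intro y
    have h2 : (Quotient.mk (Setoid.ker (std n l)) y) = Quotient.mk (Setoid.ker (std n l)) w ↔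
        std n l y = std n l w := by
      rw [Quotient.eq]
      exact Iff.rfl
    simp only [h2]
    cases std n l y <;> cases std n l w <;> simp [sg]
  simp only [h1]
  have h3 := A_std n p l hl v
  have h4 := A_const n p 1 v
  unfold A at h3 h4 ⊢
  rw [← h3, ← mul_one (D n p), ← h4, Finset.mul_sum, ← Finset.sum_add_distrib, Finset.sum_div]
  refine Finset.sum_congr rfl fun y _ => ?_
  split_ifs <;> ring

lemma sg_sq (b : Bool) : sg b * sg b = 1 := by cases b <;> simp [sg]

lemma sg_mul_ne {a b : Bool} (h : a ≠ b) : sg a * sg b = -1 := by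
  cases a <;> cases b <;> simp_all [sg]

lemma nbrs_std_same (n : ℕ) (p : Bool) (l : ℕ) (hl : l < n) (v w : W n)
    (h : std n l v = std n l w) :
    (nbrs (Gr n p) (Setoid.ker (std n l)) v (Quotient.mk _ w) : ℝ) = (D n p + th n p l) / 2 := by
  rw [nbrs_std n p l hl, h]
  have := sg_sq (std n l w)
  have h2 : sg (std n l w) * (th n p l * sg (std n l w)) =
    th n p l * (sg (std n l w) * sg (std n l w)) := by ring
  rw [h2, this, mul_one]

lemma nbrs_std_ne (n : ℕ) (p : Bool) (l : ℕ) (hl : l < n) (v w : W n)
    (h : std n l v ≠ std n l w) :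
    (nbrs (Gr n p) (Setoid.ker (std n l)) v (Quotient.mk _ w) : ℝ) = (D n p - th n p l) / 2 := by
  rw [nbrs_std n p l hl]
  have := sg_mul_ne h
  have h2 : sg (std n l w) * (th n p l * sg (std n l v)) =
    th n p l * (sg (std n l v) * sg (std n l w)) := by ring
  rw [h2, this]
  ring

lemma std_FAT (n : ℕ) (p : Bool) (l : ℕ) (hl : l < n) (hD : 0 < D n p) :
    IsFAT (Gr n p) (Setoid.ker (std n l)) := by
  obtain ⟨x⟩ := instNonemptyW n
  have h1 := nbrs_std_same n p l hl x x rfl
  have h2 := nbrs_std_ne n p l hl x (flip n l x) (by
    rw [std_flip n l x hl]; cases std n l x <;> simp)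
  have h3 : (0 : ℝ) ≤ (D n p + th n p l) / 2 := by rw [← h1]; exact Nat.cast_nonneg _
  have h4 : (0 : ℝ) ≤ (D n p - th n p l) / 2 := by rw [← h2]; exact Nat.cast_nonneg _
  refine ⟨(D n p - th n p l) / (2 * D n p), div_nonneg (by linarith) (by linarith), ?_, ?_⟩
  · rw [div_le_one (by linarith)]
    linarith
  · intro v q
    induction q using Quotient.inductionOn with
    | h w =>
      constructor
      · intro hne
        rw [nbrs_std_ne n p l hl v w (fun h => hne (Quotient.sound h)), deg_eq]
        field_simp
      · intro heq
        rw [nbrs_std_same n p l hl v w (Quotient.exact heq), deg_eq, card_std n l hl]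
        field_simp
        ring

lemma D_pos (n : ℕ) (hn : 0 < n) : 0 < D n true := by
  cases n with
  | zero => omega
  | succ n =>
    simp only [D, if_true, Bool.not_true]
    have := D_nonneg n false
    positivity

/-- Classification of the FAT partitions with more than one class. -/
lemma classify (n : ℕ) (hn : 0 < n) (s : Setoid (W n)) (hs : IsFAT (Gr n true) s)
    (htop : s ≠ ⊤) :
    ∃ l < n, ∃ (e : Bool ≃ Quotient s) (φ : W n ≃ W n),
      (∀ x y, adj n true (φ x) (φ y) = adj n true x y) ∧
        ∀ x, Quotient.mk s x = e (std n l (φ x)) := by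
  classical
  have hDpos := D_pos n hn
  obtain ⟨α, hα0, hα1, hα⟩ := hs
  have hnt : Nontrivial (Quotient s) := by
    by_contra hcon
    rw [not_nontrivial_iff_subsingleton] at hcon
    apply htop
    ext x y
    constructor
    · intro _; trivial
    · intro _
      exact Quotient.exact (hcon.elim (Quotient.mk s x) (Quotient.mk s y))
  have hfin : Finite (Quotient s) := Quotient.finite s
  set k : ℝ := (Nat.card (Quotient s) : ℝ) with hk
  have hkpos : 0 < k := by
    rw [hk]
    exact_mod_cast Nat.card_pos
  -- `α ≠ 0` because the graph is connected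
  have hαne : α ≠ 0 := by
    rintro rfl
    have hstep : ∀ x y, adj n true x y = true → Quotient.mk s x = Quotient.mk s y := by
      intro x y hxy
      by_contra hne
      have h1 := (hα x (Quotient.mk s y)).1 hne
      rw [zero_mul] at h1
      have h2 : nbrs (Gr n true) s x (Quotient.mk s y) = 0 := by exact_mod_cast h1
      unfold nbrs at h2
      rw [Nat.card_eq_zero] at h2
      rcases h2 with h2 | h2
      · exact h2.elim ⟨y, hxy, rfl⟩
      · exact h2.not_finite inferInstance
    obtain ⟨q, q', hqq⟩ := exists_pair_ne (Quotient s)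
    induction q using Quotient.inductionOn with
    | h x =>
      induction q' using Quotient.inductionOn with
      | h y =>
        apply hqq
        cases n with
        | zero => omega
        | succ n =>
          by_cases h : x.1 = y.1
          · have h1 : adj (n + 1) true x ((!x.1, x.2) : Bool × W n) = true := by
              have : x.1 ≠ !x.1 := by cases x.1 <;> simp
              change (if x.1 = !x.1 then adj n (!true) x.2 x.2 else true) = true
              rw [if_neg this]
            have h2 : adj (n + 1) true ((!x.1, x.2) : Bool × W n) y = true := by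
              have : (!x.1) ≠ y.1 := by rw [← h]; cases x.1 <;> simp
              change (if (!x.1) = y.1 then adj n (!true) x.2 y.2 else true) = true
              rw [if_neg this]
            exact (hstep _ _ h1).trans (hstep _ _ h2)
          · apply hstep
            change (if x.1 = y.1 then adj n (!true) x.2 y.2 else true) = true
            rw [if_neg h]
  let c : W n → Quotient s := fun x => Quotient.mk s x
  have hcsurj : Function.Surjective c := Quotient.mk_surjective
  let θ : ℝ := (1 - k * α) * D n true
  have hval : ∀ (i : Quotient s) (x : W n), A n true (fun y => if c y = i then 1 else 0) x =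
      if c x = i then (1 - (k - 1) * α) * D n true else α * D n true := by
    intro i x
    rw [← nbrs_eq n true s x i]
    have h1 := hα x i
    rw [deg_eq] at h1
    split_ifs with h
    · exact h1.2 h
    · exact h1.1 h
  have hA : ∀ i j x, A n true (dif c i j) x = θ * dif c i j x := by
    intro i j x
    have h1 := A_sub n true (fun y => if c y = i then 1 else 0) (fun y => if c y = j then 1 else 0) x
    have h2 : dif c i j = fun y => (if c y = i then (1 : ℝ) else 0) - (if c y = j then 1 else 0) := by
      funext y
      unfold dif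
      by_cases h3 : c y = i <;> by_cases h4 : c y = j <;> simp [h3, h4]
    rw [h2, h1, hval i x, hval j x]
    simp only [θ]
    split_ifs <;> ring
  have h0 : ∀ i j, ∑ x, dif c i j x = 0 := by
    intro i j
    have h1 := sum_A n true (dif c i j)
    simp only [hA, ← Finset.mul_sum] at h1
    have h2 : (k * α * D n true) * ∑ x, dif c i j x = 0 := by
      simp only [θ] at h1
      linarith
    rcases mul_eq_zero.1 h2 with h3 | h3
    · exfalso
      have : k * α * D n true ≠ 0 := mul_ne_zero (mul_ne_zero hkpos.ne' hαne) hDpos.ne'
      exact this h3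
    · exact h3
  obtain ⟨l, hl, -, e, φ, hφ, hc⟩ := lemK n true θ (Quotient s) hnt c hcsurj hA h0
  exact ⟨l, hl, e, φ, hφ, hc⟩

lemma std_ne_top (n l : ℕ) (hl : l < n) : Setoid.ker (std n l) ≠ ⊤ := by
  intro h
  obtain ⟨x, hx⟩ := std_surj n l hl false
  obtain ⟨y, hy⟩ := std_surj n l hl true
  have h1 : (Setoid.ker (std n l)).r x y := by
    rw [h]; trivial
  have h2 : std n l x = std n l y := h1
  rw [hx, hy] at h2
  cases h2

lemma irreducible_iff (n : ℕ) (hn : 0 < n) (s : Setoid (W n)) :
    IrreducibleFAT (Gr n true) s ↔ IsFAT (Gr n true) s ∧ s ≠ ⊤ := by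
  constructor
  · rintro ⟨h1, h2⟩
    refine ⟨h1, ?_⟩
    rintro rfl
    exact std_ne_top n 0 hn (h2 _ (std_FAT n true 0 hn (D_pos n hn)) le_top)
  · rintro ⟨h1, h2⟩
    refine ⟨h1, fun t ht hts => ?_⟩
    have httop : t ≠ ⊤ := by
      rintro rfl
      exact h2 (top_le_iff.1 hts)
    obtain ⟨l, hl, e, -⟩ := classify n hn s h1 h2
    obtain ⟨l', hl', e', -⟩ := classify n hn t ht httop
    have hfs : Finite (Quotient s) := Quotient.finite s
    have hft : Finite (Quotient t) := Quotient.finite t
    have hcs : Nat.card (Quotient s) = 2 := by rw [← Nat.card_congr e]; simp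
    have hct : Nat.card (Quotient t) = 2 := by rw [← Nat.card_congr e']; simp
    let F : Quotient t → Quotient s := Quotient.map' id (fun a b h => hts h)
    have hF : Function.Surjective F := by
      intro q
      induction q using Quotient.inductionOn with
      | h x => exact ⟨Quotient.mk t x, rfl⟩
    have hFinj : Function.Injective F :=
      ((Nat.bijective_iff_surjective_and_card F).2 ⟨hF, by rw [hcs, hct]⟩).1
    refine le_antisymm hts ?_
    intro x y hxy
    have h3 : F (Quotient.mk t x) = F (Quotient.mk t y) := Quotient.sound hxy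
    exact Quotient.exact (hFinj h3)

/-- For every `b ≥ 1` there is a finite connected simple graph with exactly `b` irreducible FAT
colourings. -/
theorem result (b : ℕ) (hb : 1 ≤ b) :
    ∃ (V : Type) (_ : Finite V) (G : SimpleGraph V), G.Connected ∧ HasExactly G b := by
  refine ⟨W b, inferInstance, Gr b true, ?_, ?_⟩
  · have hne := instNonemptyW b
    refine { preconnected := ?_, nonempty := hne }
    intro x y
    cases b with
    | zero => omega
    | succ n =>
      by_cases h : x.1 = y.1
      · have h1 : (Gr (n + 1) true).Adj x ((!x.1, x.2) : Bool × W n) := by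
          have : x.1 ≠ !x.1 := by cases x.1 <;> simp
          change (if x.1 = !x.1 then adj n (!true) x.2 x.2 else true) = true
          rw [if_neg this]
        have h2 : (Gr (n + 1) true).Adj ((!x.1, x.2) : Bool × W n) y := by
          have : (!x.1) ≠ y.1 := by rw [← h]; cases x.1 <;> simp
          change (if (!x.1) = y.1 then adj n (!true) x.2 y.2 else true) = true
          rw [if_neg this]
        exact h1.reachable.trans h2.reachable
      · apply SimpleGraph.Adj.reachable
        change (if x.1 = y.1 then adj n (!true) x.2 y.2 else true) = true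
        rw [if_neg h]
  · refine ⟨fun i => Setoid.ker (std b i), ?_, ?_, ?_⟩
    · intro i
      rw [irreducible_iff b (by omega)]
      exact ⟨std_FAT b true i i.2 (D_pos b (by omega)), std_ne_top b i i.2⟩
    · rintro i j ⟨φ, hφ⟩
      obtain ⟨x⟩ := instNonemptyW b
      have h1 := nbrs_std_same b true i i.2 x x rfl
      have h2 := nbrs_std_same b true j j.2 (φ x) (φ x) rfl
      have h3 : nbrs (Gr b true) (Setoid.ker (std b i)) x (Quotient.mk _ x) =
          nbrs (Gr b true) (Setoid.ker (std b j)) (φ x) (Quotient.mk _ (φ x)) := by
        unfold nbrs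
        refine Nat.card_congr (Equiv.subtypeEquiv φ.toEquiv fun w => ?_)
        have e1 : (Gr b true).Adj x w ↔ (Gr b true).Adj (φ x) (φ w) := φ.map_adj_iff.symm
        have e2 : (Quotient.mk (Setoid.ker (std b i)) w = Quotient.mk _ x) ↔
            (Quotient.mk (Setoid.ker (std b j)) (φ w) = Quotient.mk _ (φ x)) := by
          rw [Quotient.eq, Quotient.eq]
          exact hφ w x
        exact and_congr e1 e2
      rw [h3, h2] at h1
      have h4 : th b true j = th b true i := by linarith
      exact Fin.ext (th_inj b true i j i.2 j.2 h4.symm)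
    · intro s hs
      rw [irreducible_iff b (by omega)] at hs
      obtain ⟨l, hl, e, φ, hφ, hc⟩ := classify b (by omega) s hs.1 hs.2
      refine ⟨⟨l, hl⟩, ⟨φ, ?_⟩, ?_⟩
      · intro x y
        change adj b true (φ x) (φ y) = true ↔ adj b true x y = true
        rw [hφ]
      · intro x y
        change s.r x y ↔ std b l (φ x) = std b l (φ y)
        have h1 : s.r x y ↔ Quotient.mk s x = Quotient.mk s y := by
          rw [Quotient.eq]
        rw [h1, hc x, hc y, e.apply_eq_iff_eq]

end Pool.Agent.Results.MP_48b99b_co.ExactlyB
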